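import Pool.Agent.PST.StmtsK1

/-!
# Squad PST, row LSA (helper81): relative traces from the kernel of an additive invariant function
-/

set_option autoImplicit false

open scoped BigOperators

noncomputable section

namespace Pool.Agent.PST.H81

open Pool.Agent.PFC (tw IsTv)
open Pool.Agent.PFD.D2b (FrR)
open Pool.Agent.PSS
open Pool.Agent.PSS.S0 (IsBQ)
open Pool.Agent.PST

/-- row LSA -/
theorem lsa (dex : DexStmt) (dzu : DzuStmt) (rfs : S0.RfsStmt) (thl : S2.ThlStmt) : LsaStmt := by
  classical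
  intro ℓ _ F V E A K _ _ _ _ _ _ _ _ _ φ α lam x y u₀ e S T hV hE hCl hRF hu hAdc heS hev hT c hc
  obtain ⟨D, hD, hDv⟩ := dex F V E A K φ α lam x y e hCl.per hRF hAdc
  have hcs : ∀ s ∈ S, c * α s = α s * c := by
    intro s hs
    have h1 : α s * (c * α s⁻¹) = c := hc s hs
    calc c * α s = α s * (c * α s⁻¹) * α s := by rw [h1]
      _ = α s * c * (α s⁻¹ * α s) := by simp only [mul_assoc]
      _ = α s * c := by rw [← map_mul, inv_mul_cancel, map_one, mul_one]
  have : Fintype S := Fintype.ofFinite S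
  have hRF' := rfs F V A K α lam x y S T hRF hT
  let x' : K × T → A := fun p => x p.1 * α p.2
  let y' : K × T → A := fun p => α (p.2 : V)⁻¹ * y p.1
  let f : A →ₗ[F] A := (LinearMap.mulRight F c).comp D
  have hf : ∀ b, f b = D b * c := fun b => rfl
  have hfl : S2.RLq 0 (α.comp S.subtype) f := by
    intro a s
    rw [S2.cg_zero, hf, hf]
    show D (a * α (s : V)) * c = D a * c * α (s : V)
    rw [hD, hDv, heS _ s.2, zero_smul, mul_zero, add_zero, mul_assoc, ← hcs _ s.2, ← mul_assoc]
  -- the relative trace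
  have hf0 : rt x y (∑ t ∈ T, α t * c * α t⁻¹) = ∑ p, x' p * c * y' p := by
    unfold rt
    rw [Fintype.sum_prod_type]
    refine Finset.sum_congr rfl fun k _ => ?_
    rw [Finset.mul_sum, Finset.sum_mul, ← Finset.sum_coe_sort T]
    refine Finset.sum_congr rfl fun t _ => ?_
    show x k * (α (t : V) * c * α (t : V)⁻¹) * y k = x k * α (t : V) * c * (α (t : V)⁻¹ * y k)
    simp only [mul_assoc]
  -- centrality of the relative traces of `V`
  have hcen : ∀ (u : V) (b : A), rt x y (α u) * b = b * rt x y (α u) := by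
    intro u b
    have hg : S2.RLq 0 α (LinearMap.mulRight F (α u)) := by
      intro a v
      rw [S2.cg_zero]
      show a * α v * α u = a * α u * α v
      rw [mul_assoc, mul_assoc, ← map_mul, ← map_mul, mul_comm v u]
    have h := (S2.cg_zero _ _).mp (thl F V A K 0 α lam x y (LinearMap.mulRight F (α u)) hRF hg b)
    have h1 : ∑ k, (LinearMap.mulRight F (α u)) (b * x k) * y k = b * rt x y (α u) := by
      unfold rt
      rw [Finset.mul_sum]
      refine Finset.sum_congr rfl fun k _ => ?_
      show b * x k * α u * y k = b * (x k * α u * y k)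
      simp only [mul_assoc]
    have h2 : ∑ k, (LinearMap.mulRight F (α u)) (x k) * y k = rt x y (α u) := rfl
    rw [h1, h2] at h
    exact h.symm
  have hcen1 : ∀ b : A, rt x y 1 * b = b * rt x y 1 := by
    have := hcen 1
    rwa [map_one] at this
  obtain ⟨u, hu0⟩ := hev
  set ζ : A := rt x y 1 with hζ
  set a : A := rt x y (α u) - ζ with ha
  have hac : ∀ b, a * b = b * a := by
    intro b
    rw [ha, sub_mul, mul_sub, hcen, hcen1]
  have hkey : D a * rt x y (∑ t ∈ T, α t * c * α t⁻¹) = 0 := by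
    have h := (S2.cg_zero _ _).mp (thl F S A (K × T) 0 (α.comp S.subtype) lam x' y' f hRF' hfl a)
    have h1 : ∑ p, f (a * x' p) * y' p =
        D a * (∑ p, x' p * c * y' p) + a * ∑ p, f (x' p) * y' p := by
      rw [Finset.mul_sum, Finset.mul_sum, ← Finset.sum_add_distrib]
      refine Finset.sum_congr rfl fun p _ => ?_
      rw [hf, hf, hD, add_mul, add_mul]
      simp only [mul_assoc]
    rw [h1, ← hac] at h
    rw [hf0]
    exact add_eq_right.mp h
  have hnil := dzu ℓ F V E A K φ α lam x y e D hV hE hCl hRF hAdc hD hDv u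
  have hζu : IsUnit ζ := by
    have h1 : u₀ * ζ = 1 := hu
    have h2 : ζ * u₀ = 1 := by rw [hcen1]; exact h1
    exact ⟨⟨ζ, u₀, h2, h1⟩, rfl⟩
  have hunit : IsUnit (e u • (ζ * ζ)) := by
    have h1 : e u • (ζ * ζ) = algebraMap F A (e u) * (ζ * ζ) := Algebra.smul_def _ _
    rw [h1]
    exact ((IsUnit.mk0 _ hu0).map (algebraMap F A)).mul (hζu.mul hζu)
  have hcomm : Commute (D a - e u • (ζ * ζ)) (e u • (ζ * ζ)) := by
    have h1 : ∀ b : A, Commute b (e u • (ζ * ζ)) := by
      intro b
      refine Commute.smul_right ?_ _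
      exact (show Commute b ζ from (hcen1 b).symm).mul_right (hcen1 b).symm
    exact h1 _
  have hDa : IsUnit (D a) := by
    have h1 := IsNilpotent.isUnit_add_left_of_commute hnil hunit hcomm
    rwa [add_sub_cancel] at h1
  obtain ⟨w, hw⟩ := hDa
  have h3 : (w : A) * rt x y (∑ t ∈ T, α t * c * α t⁻¹) = 0 := by rw [hw]; exact hkey
  calc rt x y (∑ t ∈ T, α t * c * α t⁻¹) =
        ((w⁻¹ : Aˣ) : A) * ((w : A) * rt x y (∑ t ∈ T, α t * c * α t⁻¹)) := by
          rw [← mul_assoc, Units.inv_mul, one_mul]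
    _ = 0 := by rw [h3, mul_zero]

end Pool.Agent.PST.H81
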