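import Pool.Agent.PST.StmtsK2

/-!
# Squad PST, row DRX (helper81): the derivation of the Brauer quotient at `zpowers r`
-/

set_option autoImplicit false

open scoped BigOperators TensorProduct

noncomputable section

namespace Pool.Agent.PST.H81

open Pool.Agent.PFC (tw IsTv)
open Pool.Agent.PFD.D2 (Cdv FibG)
open Pool.Agent.PFD.D2b (FrR)
open Pool.Agent.PSS
open Pool.Agent.PSS.S0 (IsBQ)
open Pool.Agent.PST
open Finset

section zp

variable (R : Type) {V A : Type} [CommRing R] [CommGroup V] [Ring A] [Algebra R A]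

theorem cw_ap (α : V →* A) (u : V) (a : A) : cw R α u a = α u * a * α u⁻¹ := by
  show α u * (a * α u⁻¹) = _
  rw [mul_assoc]

theorem mem_zp (α : V →* A) (r : V) (a : A) :
    a ∈ FxR (cw R α) (Subgroup.zpowers r) ↔ a * α r = α r * a := by
  constructor
  · intro h
    have h1 := h r (Subgroup.mem_zpowers r)
    rw [cw_ap] at h1
    calc a * α r = α r * a * α r⁻¹ * α r := by rw [h1]
      _ = α r * a := by rw [mul_assoc, ← map_mul, inv_mul_cancel, map_one, mul_one]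
  · intro h
    let S : Subgroup V :=
      { carrier := {u | cw R α u a = a}
        mul_mem' := by
          intro u v hu hv
          show cw R α (u * v) a = a
          rw [map_mul, Module.End.mul_apply]
          rw [show cw R α v a = a from hv, show cw R α u a = a from hu]
        one_mem' := by
          show cw R α 1 a = a
          rw [map_one]; rfl
        inv_mem' := by
          intro u hu
          show cw R α u⁻¹ a = a
          have h1 : cw R α u⁻¹ (cw R α u a) = a := by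
            rw [← Module.End.mul_apply, ← map_mul, inv_mul_cancel, map_one]; rfl
          rwa [show cw R α u a = a from hu] at h1 }
    have hS : Subgroup.zpowers r ≤ S := by
      rw [Subgroup.zpowers_le]
      show cw R α r a = a
      rw [cw_ap, ← h, mul_assoc, ← map_mul, mul_inv_cancel, map_one, mul_one]
    exact fun u hu => hS hu

end zp

section par

variable {R K V A B κ Ω : Type} [CommRing R] [Field K] [Algebra R K] [CommGroup V]
  [Fintype V] [Ring A] [Algebra R A] [Ring B] [Algebra R B] [Algebra K B] [Fintype κ] [Fintype Ω]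
  [MulAction (V × V) Ω] {α : V →* A} {lam : A →ₗ[R] R} {x y : κ → A} {b : Ω → A}
  {c : Ω → (A →ₗ[R] R)}

theorem par_add_l (C : KC R K B α lam x y b c) (cc : B →ₗ[K] B →ₗ[K] B) (r : V) (k : B)
    (y₁ y₂ a : A) : par C cc r k (y₁ + y₂) a = par C cc r k y₁ a + par C cc r k y₂ a := by
  unfold par
  rw [map_add, add_mul, add_mul, map_add]

theorem xcm_add (C : KC R K B α lam x y b c) (cc : B →ₗ[K] B →ₗ[K] B) (r : A) (k : B)
    (a₁ a₂ : A) : xcm C.i (fun a b => cc a b) r k (a₁ + a₂) =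
      xcm C.i (fun a b => cc a b) r k a₁ + xcm C.i (fun a b => cc a b) r k a₂ := by
  unfold xcm
  simp only [map_add, LinearMap.add_apply, add_mul, mul_add]
  abel

theorem par_add_r (C : KC R K B α lam x y b c) (cc : B →ₗ[K] B →ₗ[K] B) (r : V) (k : B)
    (y₁ a₁ a₂ : A) : par C cc r k y₁ (a₁ + a₂) = par C cc r k y₁ a₁ + par C cc r k y₁ a₂ := by
  unfold par
  rw [xcm_add, mul_add, add_mul, map_add]

theorem i_smul (C : KC R K B α lam x y b c) (ρ : R) (a : A) :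
    C.i (ρ • a) = algebraMap R K ρ • C.i a := by
  rw [map_smul, C.tow]

theorem par_smul_l (C : KC R K B α lam x y b c) (cc : B →ₗ[K] B →ₗ[K] B) (r : V) (k : B)
    (ρ : R) (y₁ a : A) : par C cc r k (ρ • y₁) a = algebraMap R K ρ * par C cc r k y₁ a := by
  unfold par
  rw [i_smul, smul_mul_assoc, smul_mul_assoc, map_smul, smul_eq_mul]

theorem par_smul_r (C : KC R K B α lam x y b c) (cc : B →ₗ[K] B →ₗ[K] B) (r : V) (k : B)
    (ρ : R) (y₁ a : A) : par C cc r k y₁ (ρ • a) = algebraMap R K ρ * par C cc r k y₁ a := by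
  have h : xcm C.i (fun a b => cc a b) (α r) k (ρ • a) =
      algebraMap R K ρ • xcm C.i (fun a b => cc a b) (α r) k a := by
    unfold xcm
    rw [i_smul]
    simp only [map_smul, LinearMap.smul_apply, smul_mul_assoc, mul_smul_comm,
      smul_sub, smul_add]
  unfold par
  rw [h, mul_smul_comm, smul_mul_assoc, map_smul, smul_eq_mul]

end par

/-- row DRX -/
theorem drx (pai : PaiStmt) (trl : TrlStmt) (rzl : RzlStmt) (uzl : UzlStmt) (rfe : RfeStmt) :
    DrxStmt := by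
  classical
  intro ℓ hℓ R K F V A A₀ Br B κ Ω KB _ _ _ _ _ _ _ _ _ _ _ _ _ _ _ _ _ _ _ _ _ _ _ W cv f α₀ lam₀
    x₀ y₀ b₀ c₀ α lam x y b c u₀ C m₁ cc r αB β lamB xB yB hV hπ hL hu hm1 hm1n hm1i hm1d hcc hBi
    hrW hBQ hRF hlam
  have hℓ0 : 0 < ℓ := hℓ.out.pos
  obtain ⟨k, pa, pb, pc, pd, pe, pf, pg⟩ := pai R K V A B κ Ω W α lam x y b c C m₁ cc ℓ r hℓ0 hrW
    hm1 hm1n hm1i hm1d hcc hBi
  have hκ : cv.κ (ℓ : R) = 0 := (cv.ker _).2 ⟨1, by rw [hπ, mul_one]⟩
  -- the centraliser of `r`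
  let M : Submodule R A := FxR (cw R α) (Subgroup.zpowers r)
  have hM : ∀ a, a ∈ M ↔ a * α r = α r * a := mem_zp R α r
  have hMv : ∀ v, α v ∈ M := fun v => (hM _).2 (by rw [← map_mul, ← map_mul, mul_comm])
  have hMm : ∀ a ∈ M, ∀ a' ∈ M, a * a' ∈ M := by
    intro a ha a' ha'
    rw [hM] at *
    rw [mul_assoc, ha', ← mul_assoc, ha, mul_assoc]
  have hq : ∀ a ∈ M, f.q a ∈ FxR (cw F α₀) (Subgroup.zpowers r) := by
    intro a ha
    rw [mem_zp, ← hL.qa, ← map_mul, ← map_mul, (hM a).1 ha]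
  let g : M →+ Br :=
    { toFun := fun m => β (f.q m)
      map_zero' := by
        have h0 : (0 : A₀) ∈ FxR (cw F α₀) (Subgroup.zpowers r) := Submodule.zero_mem _
        have := hBQ.add 0 h0 0 h0
        show β (f.q ((0 : M) : A)) = 0
        rw [Submodule.coe_zero, map_zero]
        rw [add_zero] at this
        exact (left_eq_add.1 this)
      map_add' := by
        intro m n
        show β (f.q ((m + n : M) : A)) = β (f.q m) + β (f.q n)
        rw [Submodule.coe_add, map_add, hBQ.add _ (hq _ m.2) _ (hq _ n.2)] }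
  have hg : ∀ m : M, g m = β (f.q m) := fun _ => rfl
  have hgm : ∀ (m n : M), g ⟨m * n, hMm _ m.2 _ n.2⟩ = g m * g n := by
    intro m n
    show β (f.q ((m : A) * n)) = β (f.q m) * β (f.q n)
    rw [map_mul, hBQ.mul _ (hq _ m.2) _ (hq _ n.2)]
  have hgv : ∀ v, g ⟨α v, hMv v⟩ = αB v := by
    intro v
    show β (f.q (α v)) = αB v
    rw [hL.qa, hBQ.om]
  have hgs : ∀ (ρ : R) (m : M), g (ρ • m) = cv.κ ρ • g m := by
    intro ρ m
    show β (f.q ((ρ • m : M) : A)) = cv.κ ρ • β (f.q m)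
    rw [Submodule.coe_smul, Algebra.smul_def, map_mul, f.sc, ← Algebra.smul_def,
      hBQ.smul _ _ (hq _ m.2)]
  have hgsurj : Function.Surjective g := by
    intro z
    obtain ⟨a₀, ha₀, rfl⟩ := hBQ.surj z
    let X : Subgroup (V × V) :=
      (Subgroup.zpowers r).map ((MonoidHom.id V).prod (MonoidHom.id V))
    have ha₀' : a₀ ∈ FxR (bw F α₀) X := by
      rintro w ⟨u, hu, rfl⟩
      exact ha₀ u hu
    obtain ⟨a, ha, hqa⟩ := (uzl R F V A₀ A κ Ω cv α₀ lam₀ x₀ y₀ b₀ c₀ f α lam x y b c u₀ hL hu).2.1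
      X a₀ ha₀'
    have haM : a ∈ M := by
      intro u hu
      exact ha (u, u) ⟨u, hu, rfl⟩
    exact ⟨⟨a, haM⟩, by rw [hg, hqa]⟩
  -- the pairing
  have hex : ∀ m n : M, ∃ ρ : R, algebraMap R K ρ = (ℓ : K) * par C cc r k m n := fun m n =>
    pa m n ((hM _).1 m.2) ((hM _).1 n.2)
  choose ρ hρ using hex
  have hinj := C.rinj
  have cst : ((algebraMap R K) (ℓ : R)) = (ℓ : K) := map_natCast _ _
  let T : M → M → F := fun m n => cv.κ (ρ m n)
  have hTρ : ∀ (m n : M) (s : R), algebraMap R K s = (ℓ : K) * par C cc r k m n → T m n = cv.κ s := by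
    intro m n s hs
    show cv.κ (ρ m n) = cv.κ s
    rw [hinj ((hρ m n).trans hs.symm)]
  have hT0 : ∀ (m n : M), In (algebraMap R K) (par C cc r k m n) → T m n = 0 := by
    rintro m n ⟨s, hs⟩
    rw [hTρ m n (ℓ * s) (by rw [map_mul, cst, hs]), map_mul, hκ, zero_mul]
  have hTal : ∀ m m' n, T (m + m') n = T m n + T m' n := by
    intro m m' n
    rw [hTρ (m + m') n (ρ m n + ρ m' n)
      (by rw [map_add, hρ, hρ, Submodule.coe_add, par_add_l, mul_add]), map_add]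
  have hTar : ∀ m n n', T m (n + n') = T m n + T m n' := by
    intro m n n'
    rw [hTρ m (n + n') (ρ m n + ρ m n')
      (by rw [map_add, hρ, hρ, Submodule.coe_add, par_add_r, mul_add]), map_add]
  have hTsl : ∀ (s : R) m n, T (s • m) n = cv.κ s * T m n := by
    intro s m n
    rw [hTρ (s • m) n (s * ρ m n)
      (by rw [map_mul, hρ, Submodule.coe_smul, par_smul_l]; ring), map_mul]
  have hTsr : ∀ (s : R) m n, T m (s • n) = cv.κ s * T m n := by
    intro s m n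
    rw [hTρ m (s • n) (s * ρ m n)
      (by rw [map_mul, hρ, Submodule.coe_smul, par_smul_r]; ring), map_mul]
  -- the kernel
  have hker : ∀ m : M, g m = 0 → ∃ (m' a' : M) (n : A), n * α (r ^ ℓ) = α (r ^ ℓ) * n ∧
      (m' : A) = ∑ t ∈ range ℓ, α (r ^ t) * n * α (r ^ t)⁻¹ ∧ m = m' + (ℓ : R) • a' := by
    intro m hm
    have h1 : f.q m ∈ BKR (cw F α₀) (Subgroup.zpowers r) := (hBQ.ker _ (hq _ m.2)).1 hm
    obtain ⟨n, a', hn, ha', he⟩ := trl ℓ R F V A A₀ κ Ω cv f α₀ lam₀ x₀ y₀ b₀ c₀ α lam x y b c u₀ r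
      hV hπ hL hu m ((hM _).1 m.2) h1
    have ha'M : a' ∈ M := (hM a').2 ha'
    have hsM : ∑ t ∈ range ℓ, α (r ^ t) * n * α (r ^ t)⁻¹ ∈ M := by
      have : ∑ t ∈ range ℓ, α (r ^ t) * n * α (r ^ t)⁻¹ = (m : A) - (ℓ : R) • a' := by
        rw [he]; abel
      rw [this]
      exact M.sub_mem m.2 (M.smul_mem _ ha'M)
    exact ⟨⟨_, hsM⟩, ⟨a', ha'M⟩, n, hn, rfl, Subtype.ext he⟩
  have hTkl : ∀ m n, g m = 0 → T m n = 0 := by
    intro m n hm
    obtain ⟨m', a', z, hz, hm', rfl⟩ := hker m hm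
    rw [hTal, hTsl, hκ, zero_mul, add_zero]
    refine hT0 _ _ ?_
    rw [hm']
    exact pc z n ((hM _).1 n.2) hz
  have hTkr : ∀ m n, g n = 0 → T m n = 0 := by
    intro m n hn
    obtain ⟨n', a', z, hz, hn', rfl⟩ := hker n hn
    rw [hTar, hTsr, hκ, zero_mul, add_zero]
    refine hT0 _ _ ?_
    rw [hn']
    exact pb m z ((hM _).1 m.2) hz
  obtain ⟨δ, hδ⟩ := rzl R F V Br KB M cv.κ αB lamB xB yB g T cv.surj hRF hgsurj hgs hTal hTar hTsl
    hTsr hTkl hTkr
  -- nondegeneracy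
  have hnd : ∀ d : Br, (∀ m : M, lamB (g m * d) = 0) → d = 0 := by
    intro d hd
    refine (rfe F V Br KB αB lamB xB yB hRF.sym hRF.e1).2.1 d fun a => ?_
    obtain ⟨m, rfl⟩ := hgsurj a
    rw [hRF.sym]
    exact hd m
  have hDer : Der δ := by
    intro a b
    obtain ⟨m, rfl⟩ := hgsurj a
    obtain ⟨n, rfl⟩ := hgsurj b
    rw [← sub_eq_zero]
    refine hnd _ fun y' => ?_
    have e1 : lamB (g y' * (δ (g m * g n))) = T y' ⟨m * n, hMm _ m.2 _ n.2⟩ := by
      rw [← hgm, hδ]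
    have e2 : lamB (g y' * (δ (g m) * g n)) = T ⟨n * y', hMm _ n.2 _ y'.2⟩ m := by
      rw [← mul_assoc, hRF.sym, ← mul_assoc, ← hgm, hδ]
    have e3 : lamB (g y' * (g m * δ (g n))) = T ⟨y' * m, hMm _ y'.2 _ m.2⟩ n := by
      rw [← mul_assoc, ← hgm, hδ]
    rw [mul_sub, mul_add, map_sub, map_add, e1, e2, e3]
    obtain ⟨s, hs⟩ := pd y' m n ((hM _).1 y'.2) ((hM _).1 m.2) ((hM _).1 n.2)
    have h1 : ρ y' ⟨m * n, hMm _ m.2 _ n.2⟩ = ρ ⟨n * y', hMm _ n.2 _ y'.2⟩ m +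
        ρ ⟨y' * m, hMm _ y'.2 _ m.2⟩ n + ℓ * s := by
      apply hinj
      rw [map_add, map_add, map_mul, cst, hs, hρ, hρ, hρ]
      ring
    show cv.κ (ρ y' ⟨m * n, hMm _ m.2 _ n.2⟩) - (cv.κ (ρ ⟨n * y', hMm _ n.2 _ y'.2⟩ m) +
        cv.κ (ρ ⟨y' * m, hMm _ y'.2 _ m.2⟩ n)) = 0
    rw [h1, map_add, map_add, map_mul, hκ]
    ring
  have hW : ∀ w ∈ W, δ (αB w) = 0 := by
    intro w hw
    refine hnd _ fun y' => ?_
    rw [← hgv, hδ]
    exact hT0 _ _ ⟨0, by rw [map_zero]; exact (pe w hw y').symm⟩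
  refine ⟨δ, hDer, hW, ?_, ?_⟩
  · intro u y' hyr hyu
    have hy : y' ∈ M := (hM _).2 hyr
    have huy : α u⁻¹ * y' ∈ M := hMm _ (hMv _) _ hy
    refine ⟨ρ ⟨α u⁻¹ * y', huy⟩ ⟨α u, hMv u⟩, ?_, ?_⟩
    · rw [hρ]
      show (ℓ : K) * par C cc r k (α u⁻¹ * y') (α u) = _
      rw [pf u y' hyu]
    · have e1 : lamB (β (f.q y') * δ (αB u) * αB u⁻¹) =
          lamB (g ⟨α u⁻¹ * y', huy⟩ * δ (g ⟨α u, hMv u⟩)) := by
        rw [hgm ⟨α u⁻¹, hMv _⟩ ⟨y', hy⟩, hgv, hgv, hRF.sym, ← mul_assoc]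
        rfl
      rw [e1, hδ]
  · intro e he
    obtain ⟨her, hpe⟩ := pg e he
    refine ⟨her, ?_⟩
    have heM : e ∈ M := (hM _).2 her
    have h1 : δ (g ⟨e * α (r ^ ℓ), hMm _ heM _ (hMv _)⟩) = 0 := by
      refine hnd _ fun y' => ?_
      rw [hδ]
      exact hT0 _ _ (hpe y' ((hM _).1 y'.2))
    rw [hgm ⟨e, heM⟩ ⟨α (r ^ ℓ), hMv _⟩, hgv, hDer, hW _ hrW, mul_zero, add_zero] at h1
    have h2 : δ (g ⟨e, heM⟩) * αB (r ^ ℓ) * αB (r ^ ℓ)⁻¹ = 0 := by rw [h1, zero_mul]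
    rw [mul_assoc, ← map_mul, mul_inv_cancel, map_one, mul_one] at h2
    exact h2

end Pool.Agent.PST.H81
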