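import Pool.Agent.PST.StmtsGS
import Pool.Agent.Helper10_PSS.ADS

/-!
# Squad PST, row ADP (helper81): the class `KP` is admissible
-/

set_option autoImplicit false

namespace Pool.Agent.PST.H81

open Pool.Agent.PSS
open Pool.Agent.PSS.H10 (qr_comm qr_card)

/-- ADP -/
theorem adp (hM : MsuStmt) : AdpStmt := by
  intro ℓ hl
  refine ⟨?_, ?_, ?_, ?_⟩
  · rintro V _ E W ⟨_, _, U, X, h⟩ h0
    apply h.nt
    rw [eq_bot_iff, ← h0, ← h.uw]
    exact le_sup_left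
  · rintro V _ E W ⟨_, _, U, X, h⟩ a ha w hw
    have h1 : W.map a.toMonoidHom ≤ W := by
      rw [← h.uw, Subgroup.map_sup]
      apply sup_le
      · rintro _ ⟨u, hu, rfl⟩
        exact (le_sup_left : U ≤ U ⊔ X) (h.su a ha u hu)
      · rintro _ ⟨u, hu, rfl⟩
        exact (le_sup_right : X ≤ U ⊔ X) (h.sx a ha u hu)
    exact h1 ⟨w, hw, rfl⟩
  · rintro V V' _ _ E E' W π hQ ⟨hab, hcm, U, X, h⟩
    have hinj : Function.Injective π.toMonoidHom := π.injective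
    have hst : ∀ S : Subgroup V, (∀ a ∈ E, ∀ u ∈ S, a u ∈ S) → ∀ a ∈ E',
        ∀ u ∈ S.map π.toMonoidHom, a u ∈ S.map π.toMonoidHom := by
      rintro S hS a' ha' _ ⟨u, hu, rfl⟩
      obtain ⟨a, ha, h1⟩ := hQ.lif a' ha'
      exact ⟨a u, hS a ha u hu, h1 u⟩
    refine ⟨qr_comm hQ hab, ?_, U.map π.toMonoidHom, X.map π.toMonoidHom, ?_, ?_, ?_,
      hst U h.su, hst X h.sx, ?_⟩
    · intro a' ha' b' hb' v'
      obtain ⟨a, ha, h1⟩ := hQ.lif a' ha'
      obtain ⟨b, hb, h2⟩ := hQ.lif b' hb'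
      obtain ⟨v, rfl⟩ := hQ.sur v'
      refine ⟨a (b v) * (b (a v))⁻¹, hcm a ha b hb v, ?_⟩
      rw [map_mul, map_inv, h1, h2, h2, h1]
    · rw [← Subgroup.map_inf _ _ _ hinj, h.ux, Subgroup.map_bot]
    · rw [← Subgroup.map_sup, h.uw]
    · intro h0
      exact h.nt ((Subgroup.map_eq_bot_iff_of_injective _ hinj).1 h0)
    · rintro a' ha' _ ⟨u, hu, rfl⟩ hu1 hfix _ ⟨w, hw, rfl⟩
      obtain ⟨a, ha, h1⟩ := hQ.lif a' ha'
      have h2 : a u = u := by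
        apply hinj
        rw [h1]
        exact hfix
      have h3 : u ≠ 1 := by
        rintro rfl
        exact hu1 (map_one _)
      rw [← h1, h.fr a ha u hu h3 h2 w hw]
  · rintro V V' _ _ _ _ E E' W π hp hE _ hQ ⟨hab, hcm, U, X, h⟩ hker ⟨v, hv⟩
    have hab' := qr_comm hQ hab
    have hcm' : ∀ a ∈ E', ∀ b ∈ E', ∀ v : V', a (b v) = b (a v) := by
      intro a' ha' b' hb' v'
      obtain ⟨a, ha, h1⟩ := hQ.lif a' ha'
      obtain ⟨b, hb, h2⟩ := hQ.lif b' hb'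
      obtain ⟨v, rfl⟩ := hQ.sur v'
      have h3 : π (a (b v) * (b (a v))⁻¹) = 1 := by
        rw [← MonoidHom.mem_ker, hker]
        exact hcm a ha b hb v
      rw [map_mul, map_inv, h1, h2, h2, h1, mul_inv_eq_one] at h3
      exact h3
    obtain ⟨W', hW'⟩ := hM V' E' ⟨v, hv⟩ hcm'
    refine ⟨W', hab', ?_, W', ⊥, hW'⟩
    intro a ha b hb v
    rw [hcm' a ha b hb v, mul_inv_cancel]
    exact W'.one_mem

end Pool.Agent.PST.H81
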