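import Pool.Agent.PST.StmtsET2

/-!
# Squad PST, block ET, row GEN (helper81): the direction generates the group algebra
-/

set_option autoImplicit false

open scoped BigOperators

noncomputable section

namespace Pool.Agent.PST.ET.H81

open Pool.Agent.PST.ET

/-- row GEN -/
theorem gen : GenStmt := by
  classical
  intro ℓ r _ F V K _ _ _ _ _ _ β lam xx t B hV hE hB v₀
  rcases subsingleton_or_nontrivial K with hK | hK
  · rw [Subsingleton.elim (β v₀) 0]
    exact B.zero_mem
  have hchar : CharP K ℓ := charP_of_injective_algebraMap (algebraMap F K).injective ℓ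
  have hadd := hE.add
  -- the augmentation ideal
  let I : Submodule F K := Submodule.span F (Set.range fun v => β v - 1)
  have hI : ∀ v, β v - 1 ∈ I := fun v => Submodule.subset_span ⟨v, rfl⟩
  let X : Fin r → K := fun l => ∑ u, xx l u • β u
  have hXI : ∀ l, X l ∈ I := by
    intro l
    have : X l = ∑ u, xx l u • (β u - 1) := by
      show ∑ u, xx l u • β u = _
      simp only [smul_sub]
      rw [Finset.sum_sub_distrib, ← Finset.sum_smul, hE.x0, zero_smul, sub_zero]
    rw [this]
    exact Submodule.sum_mem _ fun u _ => Submodule.smul_mem _ _ (hI u)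
  have hXB : ∀ l, X l ∈ B := by
    intro n
    have h1 : ∑ v, xx n v • (∑ u, gv lam xx t v u • β u) = t n • X n := by
      have h2 : ∀ u, ∑ v, xx n v * gv lam xx t v u = t n * xx n u := by
        intro u
        unfold gv
        calc ∑ v, xx n v * ∑ l, t l * lam l v * xx l u =
            ∑ v, ∑ l, (t l * xx l u) * (xx n v * lam l v) := by
              refine Finset.sum_congr rfl fun v _ => ?_
              rw [Finset.mul_sum]
              refine Finset.sum_congr rfl fun l _ => ?_
              ring
          _ = ∑ l, (t l * xx l u) * ∑ v, xx n v * lam l v := by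
              rw [Finset.sum_comm]
              refine Finset.sum_congr rfl fun l _ => ?_
              rw [Finset.mul_sum]
          _ = ∑ l, (t l * xx l u) * (if n = l then 1 else 0) := by
              refine Finset.sum_congr rfl fun l _ => ?_
              rw [hE.x1]
          _ = t n * xx n u := by simp
      calc ∑ v, xx n v • (∑ u, gv lam xx t v u • β u) =
          ∑ u, (∑ v, xx n v * gv lam xx t v u) • β u := by
            simp only [Finset.smul_sum, smul_smul, Finset.sum_smul]
            rw [Finset.sum_comm]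
        _ = t n • X n := by
            show _ = t n • ∑ u, xx n u • β u
            simp only [h2, Finset.smul_sum, smul_smul]
    have h2 : X n = (t n)⁻¹ • ∑ v, xx n v • (∑ u, gv lam xx t v u • β u) := by
      rw [h1, smul_smul, inv_mul_cancel₀ (hE.t0 n), one_smul]
    rw [h2]
    exact B.smul_mem (Subalgebra.sum_mem _ fun v _ => B.smul_mem (hB v) _) _
  -- the generators modulo the square
  have h3 : ∀ v, β v - 1 - ∑ l, lam l v • X l ∈ I * I := by
    intro v
    by_contra hcon
    obtain ⟨ψ, hψ, hker⟩ := Submodule.exists_le_ker_of_notMem hcon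
    have hk : ∀ a b, ψ ((β a - 1) * (β b - 1)) = 0 := fun a b =>
      hker (Submodule.mul_mem_mul (hI a) (hI b))
    let m : V → F := fun v => ψ (β v - 1)
    have hm : ∀ u v, m (u * v) = m u + m v := by
      intro u v
      have e : β (u * v) - 1 = (β u - 1) + (β v - 1) + (β u - 1) * (β v - 1) := by
        rw [map_mul]; ring
      show ψ (β (u * v) - 1) = ψ (β u - 1) + ψ (β v - 1)
      rw [e, map_add, map_add, hk, add_zero]
    obtain ⟨k, hk'⟩ := hE.sp m hm
    have hX : ∀ l, ψ (X l) = k l := by
      intro l
      have h4 : ψ (X l) = ∑ u, xx l u * m u := by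
        have h5 : X l = ∑ u, xx l u • (β u - 1) := by
          show ∑ u, xx l u • β u = _
          simp only [smul_sub]
          rw [Finset.sum_sub_distrib, ← Finset.sum_smul, hE.x0, zero_smul, sub_zero]
        rw [h5, map_sum]
        refine Finset.sum_congr rfl fun u _ => ?_
        rw [map_smul, smul_eq_mul]
      rw [h4]
      calc ∑ u, xx l u * m u = ∑ u, ∑ n, k n * (xx l u * lam n u) := by
            refine Finset.sum_congr rfl fun u _ => ?_
            rw [hk', Finset.mul_sum]
            refine Finset.sum_congr rfl fun n _ => ?_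
            ring
        _ = ∑ n, k n * ∑ u, xx l u * lam n u := by
            rw [Finset.sum_comm]
            refine Finset.sum_congr rfl fun n _ => ?_
            rw [Finset.mul_sum]
        _ = ∑ n, k n * (if l = n then 1 else 0) := by
            refine Finset.sum_congr rfl fun n _ => ?_
            rw [hE.x1]
        _ = k l := by simp
    apply hψ
    rw [map_sub, map_sum]
    have h6 : ψ (β v - 1) = m v := rfl
    rw [h6, hk']
    simp only [map_smul, hX, smul_eq_mul]
    rw [sub_eq_zero]
    exact Finset.sum_congr rfl fun l _ => mul_comm _ _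
  let B' : Submodule F K := Subalgebra.toSubmodule B
  have hBm : ∀ x y, x ∈ B' → y ∈ B' → x * y ∈ B' := fun x y hx hy => B.mul_mem hx hy
  have h4 : I ≤ (B' ⊓ I) ⊔ I * I := by
    refine Submodule.span_le.2 ?_
    rintro _ ⟨v, rfl⟩
    have e : β v - 1 = ∑ l, lam l v • X l + (β v - 1 - ∑ l, lam l v • X l) := by abel
    show β v - 1 ∈ (B' ⊓ I) ⊔ I * I
    rw [e]
    refine Submodule.add_mem_sup ?_ (h3 v)
    exact Submodule.sum_mem _ fun l _ => Submodule.smul_mem _ _ ⟨hXB l, hXI l⟩
  -- the powers
  have h5 : ∀ k, I ^ (k + 1) ≤ (B' ⊓ I ^ (k + 1)) ⊔ I ^ (k + 2) := by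
    intro k
    induction k with
    | zero =>
      rw [zero_add, pow_one, pow_two]
      exact h4
    | succ k ih =>
      have e1 : I ^ (k + 1 + 1) = I ^ (k + 1) * I := pow_succ _ _
      rw [e1, Submodule.mul_le]
      intro x hx y hy
      obtain ⟨x₁, hx₁, x₂, hx₂, rfl⟩ := Submodule.mem_sup.1 (ih hx)
      obtain ⟨y₁, hy₁, y₂, hy₂, rfl⟩ := Submodule.mem_sup.1 (h4 hy)
      have e2 : (x₁ + x₂) * (y₁ + y₂) = x₁ * y₁ + (x₁ * y₂ + x₂ * (y₁ + y₂)) := by ring
      rw [e2]
      refine Submodule.add_mem_sup ⟨hBm _ _ hx₁.1 hy₁.1, Submodule.mul_mem_mul hx₁.2 hy₁.2⟩ ?_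
      refine Submodule.add_mem _ ?_ ?_
      · have e3 : I ^ (k + 1 + 2) = I ^ (k + 1) * (I * I) := by rw [pow_add, pow_two]
        rw [e3]
        exact Submodule.mul_mem_mul hx₁.2 hy₂
      · have e3 : I ^ (k + 1 + 2) = I ^ (k + 2) * I := by
          rw [show k + 1 + 2 = (k + 2) + 1 by ring, pow_succ]
        rw [e3]
        exact Submodule.mul_mem_mul hx₂ hy
  -- nilpotency
  obtain ⟨N, hN⟩ : ∃ N, I ^ (N + 1) = ⊥ := by
    let J : Ideal K := Ideal.span (Set.range fun v => β v - 1)
    have hfg : J.FG := by
      refine ⟨Finset.univ.image fun v => β v - 1, ?_⟩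
      show Ideal.span _ = _
      rw [Finset.coe_image, Finset.coe_univ, Set.image_univ]
    have hnil : J ≤ nilradical K := by
      refine Ideal.span_le.2 ?_
      rintro _ ⟨v, rfl⟩
      show β v - 1 ∈ nilradical K
      rw [mem_nilradical]
      refine ⟨ℓ, ?_⟩
      rw [sub_pow_char, one_pow, ← map_pow, hV, map_one, sub_self]
    obtain ⟨N, hN⟩ := (Ideal.FG.isNilpotent_iff_le_nilradical hfg).2 hnil
    have hsub : ∀ k, ∀ x ∈ I ^ k, x ∈ J ^ k := by
      intro k
      induction k with
      | zero =>
        intro x _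
        rw [pow_zero, Ideal.one_eq_top]
        trivial
      | succ k ih =>
        intro x hx
        rw [pow_succ] at hx ⊢
        refine Submodule.mul_induction_on hx ?_ ?_
        · intro a ha b hb
          refine Ideal.mul_mem_mul (ih a ha) ?_
          have : I ≤ J.restrictScalars F := by
            refine Submodule.span_le.2 ?_
            rintro _ ⟨v, rfl⟩
            exact Ideal.subset_span ⟨v, rfl⟩
          exact this hb
        · intro a b ha hb
          exact Ideal.add_mem _ ha hb
    refine ⟨N, ?_⟩
    rw [eq_bot_iff]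
    intro x hx
    have h7 := hsub (N + 1) x hx
    rw [pow_succ, hN, Ideal.zero_eq_bot, Ideal.bot_mul] at h7
    exact h7
  have h8 : ∀ j, j ≤ N → I ^ (N - j + 1) ≤ B' := by
    intro j
    induction j with
    | zero =>
      intro _
      rw [Nat.sub_zero, hN]
      exact bot_le
    | succ j ih =>
      intro hj
      have e : N - (j + 1) + 2 = N - j + 1 := by omega
      refine (h5 (N - (j + 1))).trans (sup_le inf_le_left ?_)
      rw [e]
      exact ih (by omega)
  have h9 := h8 N le_rfl
  rw [Nat.sub_self, zero_add, pow_one] at h9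
  have h10 : β v₀ - 1 ∈ B := h9 (hI v₀)
  have e : β v₀ = (β v₀ - 1) + 1 := by ring
  rw [e]
  exact B.add_mem h10 B.one_mem

end Pool.Agent.PST.ET.H81
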