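import Pool.Agent.PST.StmtsET2

/-!
# Squad PST, block ET, row RFS (helper81): relative dual families over `S`
-/

set_option autoImplicit false

open scoped BigOperators

noncomputable section

namespace Pool.Agent.PST.ET.H81

open Pool.Agent.PFD.D2 (Cdv FibG)
open Pool.Agent.PSS (RF)
open Pool.Agent.PST.ET

/-- row RFS -/
theorem rfs (rel : RelStmt) (ung : Pool.Agent.PFD.D2.UngStmt) : RfsStmt := by
  classical
  intro R F V S H Hs K _ _ _ _ _ _ _ _ _ _ _ _ _ c f α i σ σ' cf T lam0 x0 y0 hS hσ h1 h2 h3 hT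
    hlam hRF
  have hqs : ∀ (ρ : R) (a : Hs), f.q (ρ • a) = c.κ ρ • f.q a := by
    intro ρ a
    rw [Algebra.smul_def, map_mul, f.sc, ← Algebra.smul_def]
  have hσ' : ∀ v, f.q (i (σ' v)) = α v⁻¹ := by
    intro v
    have e : i (σ' v) = ∑ u, cf u (σ' v) • i (σ u) := by
      conv_lhs => rw [← hS.b1 (σ' v)]
      rw [map_sum]
      exact Finset.sum_congr rfl fun u _ => map_smul i _ _
    rw [e, map_sum]
    calc ∑ u, f.q (cf u (σ' v) • i (σ u)) = ∑ u, (if u = v⁻¹ then (1 : F) else 0) • α u := by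
          refine Finset.sum_congr rfl fun u _ => ?_
          rw [hqs, h3, hσ]
      _ = α v⁻¹ := by simp
  -- the relative form
  let es : Hs → S := fun a => ∑ v, T (i (σ' v) * a) • σ v
  have hes : ∀ a, i (es a) = ∑ v, T (i (σ' v) * a) • i (σ v) := by
    intro a
    show i (∑ v, T (i (σ' v) * a) • σ v) = _
    rw [map_sum]
    exact Finset.sum_congr rfl fun v _ => map_smul i _ _
  have hesr : ∀ a s, i (es (a * i s)) = i (es a) * i s := by
    intro a s
    rw [hes, hes]
    exact rel R V S Hs i σ σ' (cf 1) T hT h1 h2 a s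
  have hesa : ∀ a b, es (a + b) = es a + es b := by
    intro a b
    show ∑ v, T (i (σ' v) * (a + b)) • σ v = ∑ v, T (i (σ' v) * a) • σ v +
      ∑ v, T (i (σ' v) * b) • σ v
    rw [← Finset.sum_add_distrib]
    refine Finset.sum_congr rfl fun v _ => ?_
    rw [mul_add, map_add, add_smul]
  have hess : ∀ (ρ : R) a, es (ρ • a) = ρ • es a := by
    intro ρ a
    show ∑ v, T (i (σ' v) * (ρ • a)) • σ v = ρ • ∑ v, T (i (σ' v) * a) • σ v
    rw [Finset.smul_sum]
    refine Finset.sum_congr rfl fun v _ => ?_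
    rw [mul_smul_comm, map_smul, smul_eq_mul, mul_smul]
  have hqe : ∀ a, f.q (i (es a)) = ∑ v, lam0 (α v⁻¹ * f.q a) • α v := by
    intro a
    rw [hes, map_sum]
    refine Finset.sum_congr rfl fun v _ => ?_
    rw [hqs, hσ, ← hlam, map_mul, hσ']
  choose xb hxb using fun k => f.surj (x0 k)
  choose yb hyb using fun k => f.surj (y0 k)
  let Φ : Hs →ₗ[R] Hs :=
    { toFun := fun a => ∑ k, xb k * i (es (yb k * a))
      map_add' := by
        intro a b
        rw [← Finset.sum_add_distrib]
        refine Finset.sum_congr rfl fun k _ => ?_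
        rw [mul_add, hesa, map_add, mul_add]
      map_smul' := by
        intro ρ a
        rw [RingHom.id_apply, Finset.smul_sum]
        refine Finset.sum_congr rfl fun k _ => ?_
        rw [mul_smul_comm, hess, map_smul, mul_smul_comm] }
  have hΦ : ∀ a, Φ a = ∑ k, xb k * i (es (yb k * a)) := fun _ => rfl
  have hqΦ : ∀ a, f.q (Φ a) = f.q a := by
    intro a
    rw [hΦ, map_sum]
    have h4 := hRF.e1 (f.q a)
    refine Eq.trans ?_ h4
    refine Finset.sum_congr rfl fun k _ => ?_
    rw [map_mul, hxb, hqe, Finset.mul_sum]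
    refine Finset.sum_congr rfl fun v _ => ?_
    rw [map_mul f.q, hyb, mul_smul_comm, mul_assoc]
  have hΦr : ∀ a s, Φ (a * i s) = Φ a * i s := by
    intro a s
    rw [hΦ, hΦ, Finset.sum_mul]
    refine Finset.sum_congr rfl fun k _ => ?_
    rw [← mul_assoc, hesr, mul_assoc]
  have hbij : Function.Bijective Φ := by
    refine ung R F Hs c Φ fun a => f.ker _ ?_
    rw [map_sub, hqΦ, sub_self]
  let e : Hs ≃ₗ[R] Hs := LinearEquiv.ofBijective Φ hbij
  have he : ∀ a, e a = Φ a := fun _ => rfl
  have her : ∀ a s, e.symm (a * i s) = e.symm a * i s := by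
    intro a s
    apply e.injective
    rw [e.apply_symm_apply, he, hΦr, ← he, e.apply_symm_apply]
  refine ⟨fun k => e.symm (xb k), yb, ?_, hyb, ?_⟩
  · intro k
    rw [← hqΦ, ← he, e.apply_symm_apply, hxb]
  · intro a
    have h5 : a = e.symm (Φ a) := by rw [← he, e.symm_apply_apply]
    conv_rhs => rw [h5, hΦ, map_sum]
    refine Finset.sum_congr rfl fun k _ => ?_
    rw [her, hes, Finset.mul_sum]
    refine Finset.sum_congr rfl fun v _ => ?_
    rw [mul_smul_comm, mul_assoc]

end Pool.Agent.PST.ET.H81
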